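import Pool.Agent.E8helper17.CND.S

/-!
# CND, pieces APP, REV, ONE, BLP
-/

set_option autoImplicit false

namespace Pool.Agent.E8helper73.CND

open H17CND

theorem APP : S_APP := by
  rintro V G A B u v w z ⟨l1, ⟨hn1, hc1⟩, hh1, hl1, hm1⟩ ⟨l2, ⟨hn2, hc2⟩, hh2, hl2, hm2⟩ hvw hAB
  refine ⟨l1 ++ l2, ⟨?_, ?_⟩, ?_, ?_, ?_⟩
  · rw [List.nodup_append']
    refine ⟨hn1, hn2, ?_⟩
    intro x hx1 hx2
    exact (Set.disjoint_left.1 hAB) ((hm1 x).1 hx1) ((hm2 x).1 hx2)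
  · rw [List.isChain_append]
    refine ⟨hc1, hc2, ?_⟩
    intro x hx y hy
    rw [hl1] at hx
    rw [hh2] at hy
    simp only [Option.mem_def, Option.some.injEq] at hx hy
    subst hx hy
    exact hvw
  · rw [List.head?_append, hh1]
    rfl
  · rw [List.getLast?_append, hl2]
    rfl
  · intro x
    rw [List.mem_append, hm1, hm2]
    rfl

theorem REV : S_REV := by
  rintro V G A u v ⟨l, ⟨hn, hc⟩, hh, hl, hm⟩
  refine ⟨l.reverse, ⟨List.nodup_reverse.2 hn, ?_⟩, ?_, ?_, ?_⟩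
  · rw [List.isChain_reverse]
    exact hc.imp fun a b h => h.symm
  · rw [List.head?_reverse, hl]
  · rw [List.getLast?_reverse, hh]
  · intro x
    rw [List.mem_reverse, hm]

theorem ONE : S_ONE := by
  intro V G u
  exact ⟨[u], ⟨by simp, by simp⟩, rfl, rfl, by simp⟩

theorem BLP : S_BLP := by
  rintro g B i j s v hv
  obtain ⟨l, ⟨hn, hc⟩, hh, hl, hm⟩ := B.ham j v hv
  refine ⟨l.map (CV.b i s), ⟨?_, ?_⟩, ?_, ?_, ?_⟩
  · refine hn.map ?_
    intro x y h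
    simpa using h
  · rw [List.isChain_map]
    refine hc.imp fun a b h => ?_
    show cadj B.H B.τ (CV.b i s a) (CV.b i s b)
    exact ⟨rfl, Or.inl ⟨rfl, h⟩⟩
  · rw [List.head?_map, hh]
    rfl
  · rw [List.getLast?_map, hl]
    rfl
  · intro x
    rw [List.mem_map]
    constructor
    · rintro ⟨h, -, rfl⟩
      exact ⟨h, rfl⟩
    · rintro ⟨h, rfl⟩
      exact ⟨h, (hm h).2 (Set.mem_univ _), rfl⟩

end Pool.Agent.E8helper73.CND
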