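import Pool.Agent.E8helper17.CND.S

/-!
# CND, piece BALL
-/

set_option autoImplicit false

namespace Pool.Agent.E8helper73.CND

open H17CND

theorem BALL : S_BALL := by
  classical
  intro V _ G D hD a r
  induction r generalizing a with
  | zero =>
    have h : {b : V | ∃ p : G.Walk a b, p.length ≤ 0} ⊆ {a} := by
      rintro b ⟨p, hp⟩
      exact (SimpleGraph.Walk.eq_of_length_eq_zero (Nat.le_zero.1 hp)).symm
    refine (Set.ncard_le_ncard h (Set.toFinite _)).trans ?_
    simp
  | succ r ih =>
    set f : V → Finset V := fun a' =>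
      (Set.toFinite {b : V | ∃ p : G.Walk a' b, p.length ≤ r}).toFinset with hf
    set s : Finset V := (Set.toFinite (G.neighborSet a)).toFinset with hs
    have h : {b : V | ∃ p : G.Walk a b, p.length ≤ r + 1} ⊆
        ((insert a (s.biUnion f) : Finset V) : Set V) := by
      rintro b ⟨p, hp⟩
      rw [Finset.mem_coe, Finset.mem_insert, Finset.mem_biUnion]
      cases p with
      | nil => exact Or.inl rfl
      | @cons _ c _ hac q =>
        right
        refine ⟨c, ?_, ?_⟩
        · rw [hs, Set.Finite.mem_toFinset]
          exact hac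
        · rw [hf, Set.Finite.mem_toFinset]
          refine ⟨q, ?_⟩
          rw [SimpleGraph.Walk.length_cons] at hp
          omega
    refine (Set.ncard_le_ncard h (Set.toFinite _)).trans ?_
    rw [Set.ncard_coe_finset]
    refine (Finset.card_insert_le _ _).trans ?_
    have h1 : (s.biUnion f).card ≤ s.card * (D + 1) ^ r := by
      refine Finset.card_biUnion_le_card_mul s f _ fun a' _ => ?_
      rw [hf, ← Set.ncard_eq_toFinset_card]
      exact ih a'
    have h2 : s.card ≤ D := by
      rw [hs, ← Set.ncard_eq_toFinset_card]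
      exact hD a
    have h3 : 1 ≤ (D + 1) ^ r := Nat.one_le_pow _ _ (Nat.succ_pos D)
    calc (s.biUnion f).card + 1 ≤ s.card * (D + 1) ^ r + (D + 1) ^ r := Nat.add_le_add h1 h3
      _ ≤ D * (D + 1) ^ r + (D + 1) ^ r := by gcongr
      _ = (D + 1) ^ (r + 1) := by ring

end Pool.Agent.E8helper73.CND
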