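import Pool.Agent.E8helper17.CND.S

/-!
# CND, pieces DEG and EXT
-/

set_option autoImplicit false

namespace Pool.Agent.E8helper73.CND

open H17CND

theorem DEG : S_DEG := by
  classical
  intro V _ G a b v hab
  have h : (G ⊔ SimpleGraph.edge a b).neighborSet v ⊆
      (G.neighborSet v ∪ (if v = a then {b} else ∅)) ∪ (if v = b then {a} else ∅) := by
    intro x hx
    rw [SimpleGraph.mem_neighborSet, SimpleGraph.sup_adj, SimpleGraph.edge_adj] at hx
    rcases hx with hx | ⟨⟨rfl, rfl⟩ | ⟨rfl, rfl⟩, -⟩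
    · exact Or.inl (Or.inl hx)
    · left; right; rw [if_pos rfl]; rfl
    · right; rw [if_pos rfl]; rfl
  refine (Set.ncard_le_ncard h (Set.toFinite _)).trans ?_
  refine (Set.ncard_union_le _ _).trans (Nat.add_le_add ((Set.ncard_union_le _ _).trans
    (Nat.add_le_add le_rfl ?_)) ?_)
  · split_ifs <;> simp
  · split_ifs <;> simp

theorem EXT (hA : S_ADD) (hB : S_BALL) : S_EXT := by
  classical
  intro V _ G g D a C hg hD hC
  have h1 := hB V G D hD a g
  have h2 : ∃ b ∈ C, b ∉ {b : V | ∃ p : G.Walk a b, p.length ≤ g} := by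
    by_contra hcon
    push Not at hcon
    have h3 : (C : Set V) ⊆ {b : V | ∃ p : G.Walk a b, p.length ≤ g} := fun b hb => hcon b hb
    have h4 := Set.ncard_le_ncard h3 (Set.toFinite _)
    rw [Set.ncard_coe_finset] at h4
    omega
  obtain ⟨b, hb, hb2⟩ := h2
  have hfar : Far G a b (g + 1) := by
    intro p
    by_contra hp
    exact hb2 ⟨p, by omega⟩
  have hba : b ≠ a := by
    rintro rfl
    exact hb2 ⟨SimpleGraph.Walk.nil, Nat.zero_le _⟩
  refine ⟨b, hb, hba, hfar, ?_⟩
  refine hA V G g a b hba.symm hg fun p => ?_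
  have := hfar p
  omega

end Pool.Agent.E8helper73.CND
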