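import Pool.Agent.E8helper92.OQ.Hub
import Pool.Agent.E8helper92.OQ.Local

/-!
# Some copy of the gadget lies in one gap of the hub
-/

namespace Pool.Agent.E8helper92.OQ

open Pool.Agent.H619R2.QP

section

variable {P M nb T : ℕ} {X Y Z : ℕ → ℕ} {pos : ℕ × ℕ × ℕ → ℕ}

/-- the hub -/
def Wh (P : ℕ) : Finset (ℕ × ℕ × ℕ) :=
  (Finset.range (P + 1)).image (fun w => (0, 0, w))

/-- the block vertices of all copies -/
def Fh (P M T : ℕ) : Finset (ℕ × ℕ × ℕ) := Finset.Icc 1 T ×ˢ Pf P M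

theorem mem_Wh {v : ℕ × ℕ × ℕ} : v ∈ Wh P ↔ v.1 = 0 ∧ v.2.1 = 0 ∧ v.2.2 < P + 1 := by
  obtain ⟨a, b, c⟩ := v
  unfold Wh
  simp only [Finset.mem_image, Finset.mem_range, Prod.mk.injEq]
  constructor
  · rintro ⟨w, h1, h2, h3, h4⟩
    omega
  · rintro ⟨h1, h2, h3⟩
    exact ⟨c, h3, h1.symm, h2.symm, rfl⟩

theorem mem_Fh {v : ℕ × ℕ × ℕ} : v ∈ Fh P M T ↔ 1 ≤ v.1 ∧ v.1 ≤ T ∧ FV P M v.2 := by
  unfold Fh
  rw [Finset.mem_product, Finset.mem_Icc, mem_Pf]
  tauto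

theorem hub_of (hinj : ∀ u v, GV P M nb T u → GV P M nb T v → pos u = pos v → u = v)
    (hnt : NT (P + 2) pos (GA P M nb T X Y Z)) :
    Hub P (GV P M nb T) (Wh P) (Fh P M T) (GA P M nb T X Y Z) pos := by
  have hW : ∀ w ∈ Wh P, GV P M nb T w := by
    intro w hw
    exact Or.inl (mem_Wh.1 hw)
  have hF : ∀ f ∈ Fh P M T, GV P M nb T f := by
    intro f hf
    obtain ⟨h1, h2, h3⟩ := mem_Fh.1 hf
    exact Or.inr ⟨h1, h2, Or.inl h3⟩
  refine ⟨?_, hW, hF, ?_, ?_, fun u v h => h.symm, fun u v h => h.1, hinj, hnt⟩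
  · unfold Wh
    rw [Finset.card_image_of_injective, Finset.card_range]
    intro a b h
    simpa using h
  · intro f hf hfW
    have h1 := (mem_Fh.1 hf).1
    have h2 := (mem_Wh.1 hfW).1
    omega
  · intro w hw f hf
    obtain ⟨h1, h2, h3⟩ := mem_Fh.1 hf
    exact ⟨hW w hw, hF f hf, Or.inl (Or.inl ⟨(mem_Wh.1 hw).1, h1, h3⟩)⟩

theorem adjH {h : ℕ} (h1 : 1 ≤ h) (hT : h ≤ T) {u v : ℕ × ℕ} (huv : LA P M nb X Y Z u v) :
    GA P M nb T X Y Z (h, u) (h, v) := by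
  refine ⟨Or.inr ⟨h1, hT, huv.1⟩, Or.inr ⟨h1, hT, huv.2.1⟩, ?_⟩
  rcases huv.2.2 with e | e
  · exact Or.inl (Or.inr ⟨h1, rfl, e⟩)
  · exact Or.inr (Or.inr ⟨h1, rfl, e⟩)

theorem nW {h : ℕ} (h1 : 1 ≤ h) (u : ℕ × ℕ) : (h, u) ∉ Wh P := by
  intro hw
  have := (mem_Wh.1 hw).1
  dsimp only at this
  omega

/-- there is a copy whose vertex `(0, P + 1)` is deep -/
theorem exists_deep (H : Hub P (GV P M nb T) (Wh P) (Fh P M T) (GA P M nb T X Y Z) pos) {B : ℕ}
    (hT : (P + 2) * (2 * B) < T) :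
    ∃ h, 1 ≤ h ∧ h ≤ T ∧ Deep (Wh P) (Fh P M T) pos B (h, (0, P + 1)) := by
  classical
  by_contra hcon
  push Not at hcon
  have h1 : ∀ h ∈ Finset.Icc 1 T, Bad (Wh P) (Fh P M T) pos B (h, (0, P + 1)) := by
    intro h hh
    rw [Finset.mem_Icc] at hh
    have := hcon h hh.1 hh.2
    unfold Deep at this
    unfold Bad
    omega
  have h2 : (Finset.Icc 1 T).card ≤ ((Fh P M T).filter (Bad (Wh P) (Fh P M T) pos B)).card := by
    refine Finset.card_le_card_of_injOn (fun h => (h, (0, P + 1))) ?_ ?_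
    · intro h hh
      rw [Finset.mem_coe] at hh
      rw [Finset.mem_coe, Finset.mem_filter, mem_Fh]
      have hh' := Finset.mem_Icc.1 hh
      exact ⟨⟨hh'.1, hh'.2, Or.inl ⟨rfl, by dsimp only; omega⟩⟩, h1 h hh⟩
    · intro a _ b _ hab
      exact (Prod.mk.inj hab).1
  have h3 := H.bad_card B
  rw [Nat.card_Icc] at h2
  omega

/-- all vertices of a deep copy are in the same gap -/
theorem copy_gap (H : Hub P (GV P M nb T) (Wh P) (Fh P M T) (GA P M nb T X Y Z) pos)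
    (hM : 1 ≤ M) (hnb : 4 ≤ nb) {h : ℕ} (h1 : 1 ≤ h) (hT : h ≤ T)
    (hd : Deep (Wh P) (Fh P M T) pos ((M + 5) * (P + 1)) (h, (0, P + 1))) :
    ∀ u, HV P M nb u → Gp (Wh P) pos (h, u) = Gp (Wh P) pos (h, (0, P + 1)) := by
  have step : ∀ u v : ℕ × ℕ, LA P M nb X Y Z v u → ∀ B,
      Deep (Wh P) (Fh P M T) pos ((B + 1) * (P + 1)) (h, v) →
      Gp (Wh P) pos (h, v) = Gp (Wh P) pos (h, (0, P + 1)) →
      Gp (Wh P) pos (h, u) = Gp (Wh P) pos (h, (0, P + 1)) ∧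
        Deep (Wh P) (Fh P M T) pos (B * (P + 1)) (h, u) := by
    intro u v huv B hB hG
    have h2 := H.step (nW h1 v) (nW h1 u) (adjH h1 hT huv).symm (B := B * (P + 1))
      (by rwa [Nat.add_mul, Nat.one_mul] at hB)
    exact ⟨h2.1.trans hG, h2.2⟩
  -- the levels
  have hlev : ∀ i, 1 ≤ i → ∀ k, i + k = M → ∀ e, e < nb →
      Gp (Wh P) pos (h, (2 * i, e)) = Gp (Wh P) pos (h, (0, P + 1)) ∧
        Deep (Wh P) (Fh P M T) pos ((k + 5) * (P + 1)) (h, (2 * i, e)) := by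
    intro i hi
    induction i, hi using Nat.le_induction with
    | base =>
      intro k hk e he
      obtain rfl : M = k + 1 := by omega
      exact step (2 * 1, e) (0, P + 1) (aL1 hM he) (k + 5) hd rfl
    | succ i hi ih =>
      intro k hk e he
      have h2 := ih (k + 1) (by omega) e he
      exact step (2 * (i + 1), e) (2 * i, e) (arc hi (by omega) he he (Or.inl rfl)) (k + 5) h2.2 h2.1
  intro u hu
  obtain ⟨s, o⟩ := u
  rcases hu with hu | hu
  · unfold FV at hu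
    dsimp only at hu
    rcases hu with ⟨e1, e2⟩ | ⟨e1, e2, e3⟩ | ⟨e1, e2⟩
    · -- left clique
      subst e1
      rcases Nat.lt_or_ge o (P + 1) with h3 | h3
      · exact (step (0, o) (0, P + 1) (aL h3 (by omega)).symm (M + 4) hd rfl).1
      · obtain rfl : o = P + 1 := by omega
        rfl
    · -- blocks
      obtain ⟨j, rfl⟩ : ∃ j, s = 2 * j + 1 := ⟨s / 2, by omega⟩
      obtain ⟨g, -, hg, -, -⟩ := two_guides j
      have hgn : g < nb := by
        unfold Gd at hg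
        omega
      rcases Nat.eq_zero_or_pos j with h0 | h0
      · subst h0
        obtain ⟨k, rfl⟩ : ∃ k, M = 1 + k := ⟨M - 1, by omega⟩
        have h2 := hlev 1 le_rfl k rfl g hgn
        exact (step (2 * 0 + 1, o) (2 * (0 + 1), g) (gr' hnb (by omega) hg e3).symm (k + 4)
          h2.2 h2.1).1
      · obtain ⟨k, rfl⟩ : ∃ k, M = j + k := ⟨M - j, by omega⟩
        have h2 := hlev j h0 k rfl g hgn
        exact (step (2 * j + 1, o) (2 * j, g) (gl hnb h0 (by omega) hg e3) (k + 4) h2.2 h2.1).1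
    · -- right clique
      subst e1
      have h2 := hlev M hM 0 rfl 0 (by omega)
      have h3 := step (2 * M + 2, 0) (2 * M, 0) (aR1 hM (by omega)) 4 h2.2 h2.1
      rcases Nat.eq_zero_or_pos o with h4 | h4
      · subst h4
        exact h3.1
      · exact (step (2 * M + 2, o) (2 * M + 2, 0) (aR h4 e2) 3 h3.2 h3.1).1
  · unfold BV at hu
    dsimp only at hu
    obtain ⟨e1, e2, e3, e4⟩ := hu
    obtain ⟨i, rfl⟩ : ∃ i, s = 2 * i := ⟨s / 2, by omega⟩
    obtain ⟨k, rfl⟩ : ∃ k, M = i + k := ⟨M - i, by omega⟩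
    exact (hlev i (by omega) k rfl o e4).1

theorem copy_loc (H : Hub P (GV P M nb T) (Wh P) (Fh P M T) (GA P M nb T X Y Z) pos)
    {h : ℕ} (h1 : 1 ≤ h) (hT : h ≤ T)
    (hgap : ∀ u, HV P M nb u → Gp (Wh P) pos (h, u) = Gp (Wh P) pos (h, (0, P + 1))) :
    Loc P (HV P M nb) (Pf P M) (LA P M nb X Y Z) (fun u => pos (h, u)) := by
  classical
  have inj1 : Function.Injective (fun u : ℕ × ℕ => (h, u)) := fun a b hab => (Prod.mk.inj hab).2
  have hgW : Gp (Wh P) pos (h, (0, P + 1)) ⊆ Wh P := Finset.filter_subset _ _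
  have hSim : ∀ S ⊆ Pf P M, ∀ s ∈ S.image (fun u => (h, u)),
      s ∈ Fh P M T ∧ Gp (Wh P) pos s = Gp (Wh P) pos (h, (0, P + 1)) := by
    intro S hS s hs
    rw [Finset.mem_image] at hs
    obtain ⟨t, ht, rfl⟩ := hs
    have h2 := mem_Pf.1 (hS ht)
    exact ⟨mem_Fh.2 ⟨h1, hT, h2⟩, hgap t (Or.inl h2)⟩
  refine ⟨fun f hf => Or.inl (mem_Pf.1 hf), fun u v h => h.symm, fun u v h => h.1, ?_, ?_, ?_, ?_⟩
  · intro u v hu hv huv
    exact inj1 (H.inj _ _ (Or.inr ⟨h1, hT, hu⟩) (Or.inr ⟨h1, hT, hv⟩) huv)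
  · intro u v huv S hS hb
    have := H.one hgW (adjH h1 hT huv) (nW h1 u) (nW h1 v) (hgap u huv.1) (hgap v huv.2.1)
      (S := S.image (fun u => (h, u))) (hSim S hS) (by
        intro s hs
        rw [Finset.mem_image] at hs
        obtain ⟨t, ht, rfl⟩ := hs
        exact hb t ht)
    rwa [Finset.card_image_of_injective _ inj1] at this
  · intro u v u' v' huv huv' e1 e2 e3 S hS hb
    have := H.two hgW (adjH h1 hT huv) (adjH h1 hT huv') (nW h1 u) (nW h1 v) (nW h1 u')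
      (nW h1 v') (hgap u huv.1) (hgap v huv.2.1) (hgap u' huv'.1) (hgap v' huv'.2.1) e1 e2 e3
      (S := S.image (fun u => (h, u))) (hSim S hS) (by
        intro s hs
        rw [Finset.mem_image] at hs
        obtain ⟨t, ht, rfl⟩ := hs
        exact hb t ht)
    rwa [Finset.card_image_of_injective _ inj1] at this
  · intro l hl hE hp
    refine H.nt (l.map (fun e => ((h, e.1), (h, e.2)))) (by simpa using hl) ?_ ?_
    · intro e he
      rw [List.mem_map] at he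
      obtain ⟨f, hf, rfl⟩ := he
      exact adjH h1 hT (hE f hf)
    · rw [List.pairwise_map]
      exact hp

/-- the positions of a copy are bounded -/
theorem copy_bdd (h : ℕ) (P M nb : ℕ) (pos : ℕ × ℕ × ℕ → ℕ) :
    ∃ N, ∀ v, HV P M nb v → pos (h, v) < N := by
  refine ⟨(Finset.range (2 * M + 3) ×ˢ Finset.range (P + 2 + nb)).sup (fun u => pos (h, u)) + 1,
      fun u hu => ?_⟩
  have : u ∈ Finset.range (2 * M + 3) ×ˢ Finset.range (P + 2 + nb) := by
    rw [Finset.mem_product, Finset.mem_range, Finset.mem_range]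
    unfold HV FV BV at hu
    omega
  exact Nat.lt_succ_of_le (Finset.le_sup (f := fun u => pos (h, u)) this)

end

/-- **Soundness.** -/
theorem sound {P : ℕ} (hP : 2 ≤ P) {ts : NBI} (hts : NBok ts) {pos : ℕ × ℕ × ℕ → ℕ}
    (hinj : ∀ u v, GV P (Mf ts) (nbf P ts) (Tf P ts) u → GV P (Mf ts) (nbf P ts) (Tf P ts) v →
      pos u = pos v → u = v)
    (hnt : NT (P + 2) pos (GA P (Mf ts) (nbf P ts) (Tf P ts) (tX ts) (tY ts) (tZ ts))) :
    NBsat ts := by
  have H := hub_of hinj hnt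
  obtain ⟨h, h1, h2, hd⟩ := exists_deep H (B := (Mf ts + 5) * (P + 1)) (by
    unfold Tf
    exact Nat.lt_succ_self _)
  obtain ⟨N, hN⟩ := copy_bdd h P (Mf ts) (nbf P ts) pos
  exact sound_local hP hts (copy_loc H h1 h2 (copy_gap H (by unfold Mf; omega)
    (by unfold nbf; omega) h1 h2 hd)) hN

end Pool.Agent.E8helper92.OQ
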